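import Mathlib

set_option autoImplicit false
set_option maxHeartbeats 4000000

namespace Pool.Agent.Results.MP_23ff89_al.NotTriple

open Matrix

/-- A square matrix indexed by `Fin n` is irreducible tridiagonal: the entries off the three central
diagonals vanish, and every entry on the subdiagonal and on the superdiagonal is nonzero. -/
def IrredTridiag {K : Type*} [Field K] {n : ℕ} (M : Matrix (Fin n) (Fin n) K) : Prop :=
  (∀ i j : Fin n, (i : ℕ) + 1 < j ∨ (j : ℕ) + 1 < i → M i j = 0) ∧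
  (∀ i j : Fin n, (i : ℕ) + 1 = j ∨ (j : ℕ) + 1 = i → M i j ≠ 0)

/-- `A, B` is a Leonard pair on `V`. -/
def IsLeonardPair {K V : Type*} [Field K] [AddCommGroup V] [Module K V]
    (A B : V →ₗ[K] V) : Prop :=
  (∃ (n : ℕ) (b : Module.Basis (Fin n) K V),
    (LinearMap.toMatrix b b A).IsDiag ∧ IrredTridiag (LinearMap.toMatrix b b B)) ∧
  (∃ (n : ℕ) (b : Module.Basis (Fin n) K V),
    (LinearMap.toMatrix b b B).IsDiag ∧ IrredTridiag (LinearMap.toMatrix b b A))

/-- There is a single basis of `V` that makes `A` diagonal and both `B` and `C` irreducible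
tridiagonal. -/
def HasCommonBasis {K V : Type*} [Field K] [AddCommGroup V] [Module K V]
    (A B C : V →ₗ[K] V) : Prop :=
  ∃ (n : ℕ) (b : Module.Basis (Fin n) K V),
    (LinearMap.toMatrix b b A).IsDiag ∧ IrredTridiag (LinearMap.toMatrix b b B) ∧
      IrredTridiag (LinearMap.toMatrix b b C)

/-- `A, B, C` is a Leonard triple on `V`. -/
def IsLeonardTriple {K V : Type*} [Field K] [AddCommGroup V] [Module K V]
    (A B C : V →ₗ[K] V) : Prop :=
  HasCommonBasis A B C ∧ HasCommonBasis B A C ∧ HasCommonBasis C A B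

/-- The basis of `K^3` made of the columns of an invertible matrix. -/
noncomputable def colBasis {K : Type*} [Field K] (P Q : Matrix (Fin 3) (Fin 3) K)
    (h1 : P * Q = 1) (h2 : Q * P = 1) : Module.Basis (Fin 3) K (Fin 3 → K) :=
  (Pi.basisFun K (Fin 3)).map (Matrix.toLin'OfInv h2 h1)

theorem colBasis_apply {K : Type*} [Field K] (P Q : Matrix (Fin 3) (Fin 3) K)
    (h1 : P * Q = 1) (h2 : Q * P = 1) (j : Fin 3) :
    colBasis P Q h1 h2 j = P *ᵥ (Pi.single j 1) := by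
  rw [colBasis, Module.Basis.map_apply, Pi.basisFun_apply]
  rfl

theorem toMatrix_colBasis {K : Type*} [Field K] (P Q A M : Matrix (Fin 3) (Fin 3) K)
    (h1 : P * Q = 1) (h2 : Q * P = 1) (h : A * P = P * M) :
    LinearMap.toMatrix (colBasis P Q h1 h2) (colBasis P Q h1 h2) (Matrix.toLin' A) = M := by
  rw [← LinearEquiv.eq_symm_apply, LinearMap.toMatrix_symm]
  refine (colBasis P Q h1 h2).ext fun j => ?_
  rw [Matrix.toLin_self, colBasis_apply, Matrix.toLin'_apply, Matrix.mulVec_mulVec, h,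
    ← Matrix.mulVec_mulVec]
  have : M *ᵥ (Pi.single j 1 : Fin 3 → K) = ∑ i, M i j • (Pi.single i 1 : Fin 3 → K) := by
    ext i
    simp [Pi.single_apply]
  rw [this, Matrix.mulVec_sum]
  refine Finset.sum_congr rfl fun i _ => ?_
  rw [Matrix.mulVec_smul, colBasis_apply]

/-- If `X` is diagonal with distinct diagonal entries in the basis `f`, while `Y` has a zero entry at
`(p, q)` and `Z` has a zero entry at `(p, r)` with `p, q, r` distinct, then no single basis makes `X`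
diagonal and both `Y` and `Z` irreducible tridiagonal. -/
theorem no_common {K V : Type*} [Field K] [AddCommGroup V] [Module K V]
    (f : Module.Basis (Fin 3) K V) (X Y Z : V →ₗ[K] V) (d : Fin 3 → K)
    (hd : Function.Injective d) (hX : LinearMap.toMatrix f f X = Matrix.diagonal d)
    (p q r : Fin 3) (hpq : p ≠ q) (hpr : p ≠ r) (hqr : q ≠ r)
    (hY : LinearMap.toMatrix f f Y p q = 0) (hZ : LinearMap.toMatrix f f Z p r = 0) :
    ¬ HasCommonBasis X Y Z := by
  rintro ⟨n, b, hbX, hbY, hbZ⟩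
  obtain rfl : n = 3 := by
    have h1 := Module.finrank_eq_card_basis b
    have h2 := Module.finrank_eq_card_basis f
    simpa [h1] using h2
  -- eigenvectors
  have hXf : ∀ i, X (f i) = d i • f i := by
    intro i
    have := LinearMap.toMatrix_mulVec_repr f f X (f i)
    apply f.repr.injective
    ext j
    rw [← this, hX]
    by_cases hij : i = j
    · subst hij; simp [Matrix.mulVec_diagonal]
    · simp [Matrix.mulVec_diagonal, hij]
  have hXb : ∀ i, X (b i) = (LinearMap.toMatrix b b X i i) • b i := by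
    intro i
    apply b.repr.injective
    ext j
    have h1 : b.repr (X (b i)) j = LinearMap.toMatrix b b X j i := by
      rw [LinearMap.toMatrix_apply]
    rw [h1]
    by_cases hij : j = i
    · subst hij; simp
    · rw [hbX hij]; simp [Ne.symm hij]
  -- each `b i` is a multiple of some `f (s i)`
  have key : ∀ i, ∃ s : Fin 3, ∃ c : K, b i = c • f s := by
    intro i
    have hne : f.repr (b i) ≠ 0 := by
      intro h
      have : b i = 0 := by simpa using h
      exact b.ne_zero i this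
    obtain ⟨s, hs⟩ : ∃ s, f.repr (b i) s ≠ 0 := by
      by_contra hcon
      push Not at hcon
      exact hne (by ext s; simpa using hcon s)
    refine ⟨s, f.repr (b i) s, ?_⟩
    set μ := LinearMap.toMatrix b b X i i with hμ
    have hco : ∀ t, d t * f.repr (b i) t = μ * f.repr (b i) t := by
      intro t
      have h1 : f.repr (X (b i)) t = d t * f.repr (b i) t := by
        rw [← LinearMap.toMatrix_mulVec_repr f f X (b i), hX]
        simp [Matrix.mulVec_diagonal]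
      rw [← h1, hXb i, map_smul, Finsupp.smul_apply, smul_eq_mul]
    have hμs : d s = μ := mul_right_cancel₀ hs (hco s)
    apply f.repr.injective
    ext t
    by_cases hts : t = s
    · subst hts; simp
    · have : f.repr (b i) t = 0 := by
        by_contra hne'
        have h2 : d t = μ := mul_right_cancel₀ hne' (hco t)
        exact hts (hd (h2.trans hμs.symm))
      simp [this, Ne.symm hts]
  choose s c hsc using key
  have hc : ∀ i, c i ≠ 0 := by
    intro i h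
    apply b.ne_zero i
    rw [hsc i, h, zero_smul]
  have hsinj : Function.Injective s := by
    intro i j hij
    by_contra hne
    have h1 : c j • b i = c i • b j := by
      rw [hsc i, hsc j, hij, smul_smul, smul_smul, mul_comm]
    have h2 := congrArg (fun v => b.repr v i) h1
    simp [Ne.symm hne] at h2
    exact hc j h2
  have hssurj : Function.Surjective s := Finite.surjective_of_injective hsinj
  have hentry : ∀ (W : V →ₗ[K] V) (i j : Fin 3),
      c i * LinearMap.toMatrix b b W i j = c j * LinearMap.toMatrix f f W (s i) (s j) := by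
    intro W i j
    have h1 : W (b j) = ∑ k, LinearMap.toMatrix b b W k j • b k := by
      conv_lhs => rw [← b.sum_repr (W (b j))]
      simp [LinearMap.toMatrix_apply]
    have h2 : W (b j) = c j • W (f (s j)) := by rw [hsc j, map_smul]
    have h3 : f.repr (W (b j)) (s i) = c j * LinearMap.toMatrix f f W (s i) (s j) := by
      rw [h2]; simp [LinearMap.toMatrix_apply]
    rw [← h3, h1]
    simp only [map_sum, map_smul, Finsupp.coe_finsetSum, Finset.sum_apply, Finsupp.smul_apply,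
      smul_eq_mul]
    rw [Finset.sum_eq_single i]
    · rw [hsc i]; simp [mul_comm]
    · intro k _ hk
      rw [hsc k]
      have : s k ≠ s i := fun h => hk (hsinj h)
      simp [this]
    · simp
  obtain ⟨i, hi⟩ := hssurj p
  obtain ⟨j, hj⟩ := hssurj q
  obtain ⟨k, hk⟩ := hssurj r
  have hYij : LinearMap.toMatrix b b Y i j = 0 := by
    have := hentry Y i j
    rw [hi, hj, hY, mul_zero] at this
    exact (mul_eq_zero.mp this).resolve_left (hc i)
  have hZik : LinearMap.toMatrix b b Z i k = 0 := by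
    have := hentry Z i k
    rw [hi, hk, hZ, mul_zero] at this
    exact (mul_eq_zero.mp this).resolve_left (hc i)
  have hij : i ≠ j := fun h => hpq (by rw [← hi, ← hj, h])
  have hik : i ≠ k := fun h => hpr (by rw [← hi, ← hk, h])
  have hjk : j ≠ k := fun h => hqr (by rw [← hj, ← hk, h])
  have h1 : ¬ ((i : ℕ) + 1 = j ∨ (j : ℕ) + 1 = i) := fun h => hbY.2 i j h hYij
  have h2 : ¬ ((i : ℕ) + 1 = k ∨ (k : ℕ) + 1 = i) := fun h => hbZ.2 i k h hZik
  omega

theorem mat_ext3 {K : Type*} (M N : Matrix (Fin 3) (Fin 3) K)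
    (h00 : M 0 0 = N 0 0) (h01 : M 0 1 = N 0 1) (h02 : M 0 2 = N 0 2)
    (h10 : M 1 0 = N 1 0) (h11 : M 1 1 = N 1 1) (h12 : M 1 2 = N 1 2)
    (h20 : M 2 0 = N 2 0) (h21 : M 2 1 = N 2 1) (h22 : M 2 2 = N 2 2) : M = N := by
  ext i j
  fin_cases i <;> fin_cases j <;> assumption

theorem toMatrix_reindex {K V : Type*} [Field K] [AddCommGroup V] [Module K V]
    (f : Module.Basis (Fin 3) K V) (e : Equiv.Perm (Fin 3)) (X : V →ₗ[K] V) :
    LinearMap.toMatrix (f.reindex e) (f.reindex e) X =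
      (LinearMap.toMatrix f f X).submatrix e.symm e.symm := by
  ext i j
  simp [LinearMap.toMatrix_apply]

/-- Irreducible tridiagonal `3 x 3` matrices whose middle index is `c`. -/
def Mid {K : Type*} [Field K] (c : Fin 3) (M : Matrix (Fin 3) (Fin 3) K) : Prop :=
  ∀ i j : Fin 3, i ≠ j → (M i j ≠ 0 ↔ (i = c ∨ j = c))

theorem Mid.irred {K : Type*} [Field K] {c : Fin 3} {M : Matrix (Fin 3) (Fin 3) K}
    (h : Mid c M) (e : Equiv.Perm (Fin 3)) (he : e c = 1) :
    IrredTridiag (M.submatrix e.symm e.symm) := by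
  have hc : ∀ i, e.symm i = c ↔ (i : ℕ) = 1 := by
    intro i
    rw [Equiv.symm_apply_eq, he]
    constructor
    · rintro rfl; rfl
    · intro h; exact Fin.ext h
  constructor
  · intro i j hij
    have hne : e.symm i ≠ e.symm j := by
      intro h'
      have := e.symm.injective h'
      subst this
      omega
    by_contra hcon
    have h2 := (h _ _ hne).mp hcon
    rw [hc, hc] at h2
    omega
  · intro i j hij
    have hne : e.symm i ≠ e.symm j := by
      intro h'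
      have := e.symm.injective h'
      subst this
      omega
    refine (h _ _ hne).mpr ?_
    rw [hc, hc]
    omega

theorem Mid.zero {K : Type*} [Field K] {c : Fin 3} {M : Matrix (Fin 3) (Fin 3) K}
    (h : Mid c M) (p q : Fin 3) (hpq : p ≠ q) (hp : p ≠ c) (hq : q ≠ c) : M p q = 0 := by
  by_contra hcon
  rcases (h p q hpq).mp hcon with h' | h'
  · exact hp h'
  · exact hq h'

theorem mid1 {K : Type*} [Field K] (a b c x y z w : K) (hx : x ≠ 0) (hy : y ≠ 0) (hz : z ≠ 0)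
    (hw : w ≠ 0) : Mid 1 !![a, x, 0; y, b, z; 0, w, c] := by
  intro i j h
  fin_cases i <;> fin_cases j <;> simp [hx, hy, hz, hw] at h ⊢

theorem mid2 {K : Type*} [Field K] (a b c x y z w : K) (hx : x ≠ 0) (hy : y ≠ 0) (hz : z ≠ 0)
    (hw : w ≠ 0) : Mid 2 !![a, 0, x; 0, b, y; z, w, c] := by
  intro i j h
  fin_cases i <;> fin_cases j <;> simp [hx, hy, hz, hw] at h ⊢

theorem mid0 {K : Type*} [Field K] (a b c x y z w : K) (hx : x ≠ 0) (hy : y ≠ 0) (hz : z ≠ 0)
    (hw : w ≠ 0) : Mid 0 !![a, x, y; z, b, 0; w, 0, c] := by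
  intro i j h
  fin_cases i <;> fin_cases j <;> simp [hx, hy, hz, hw] at h ⊢

theorem diag3 {K : Type*} [Field K] (a b c : K) :
    (!![a, 0, 0; 0, b, 0; 0, 0, c] : Matrix (Fin 3) (Fin 3) K) = Matrix.diagonal ![a, b, c] := by
  ext i j
  fin_cases i <;> fin_cases j <;> simp

theorem inj3 {K : Type*} [Field K] (a b c : K) (h1 : a ≠ b) (h2 : a ≠ c) (h3 : b ≠ c) :
    Function.Injective ![a, b, c] := by
  intro i j hij
  fin_cases i <;> fin_cases j <;> simp_all

/-- Two maps form a Leonard pair as soon as each of them is irreducible tridiagonal, up to the order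
of the basis, in a basis diagonalising the other. -/
theorem pair_of {K V : Type*} [Field K] [AddCommGroup V] [Module K V] (X Y : V →ₗ[K] V)
    (f g : Module.Basis (Fin 3) K V) (d d' : Fin 3 → K) (M M' : Matrix (Fin 3) (Fin 3) K)
    (c c' : Fin 3)
    (h1 : LinearMap.toMatrix f f X = Matrix.diagonal d) (h2 : LinearMap.toMatrix f f Y = M)
    (hM : Mid c M)
    (h3 : LinearMap.toMatrix g g Y = Matrix.diagonal d') (h4 : LinearMap.toMatrix g g X = M')
    (hM' : Mid c' M') : IsLeonardPair X Y := by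
  refine ⟨⟨3, f.reindex (Equiv.swap c 1), ?_, ?_⟩, ⟨3, g.reindex (Equiv.swap c' 1), ?_, ?_⟩⟩
  · rw [toMatrix_reindex, h1]
    intro i j hij
    simp [hij]
  · rw [toMatrix_reindex, h2]
    exact hM.irred _ (by simp)
  · rw [toMatrix_reindex, h3]
    intro i j hij
    simp [hij]
  · rw [toMatrix_reindex, h4]
    exact hM'.irred _ (by simp)

/-- The conclusion we want for a field `K` (an abbreviation used only inside the proof). -/
def Fails (K : Type*) [Field K] : Prop :=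
  ∃ A B C : (Fin 3 → K) →ₗ[K] (Fin 3 → K),
      (IsLeonardPair A B ∧ IsLeonardPair A C ∧ IsLeonardPair B C) ∧ ¬ IsLeonardTriple A B C ∧
      ¬ HasCommonBasis A B C ∧ ¬ HasCommonBasis B A C ∧ ¬ HasCommonBasis C A B

/-- A certificate for the failure over `K`, by explicit matrices. -/
theorem cert {K : Type*} [Field K] (A B C P Q R S M N M' N' : Matrix (Fin 3) (Fin 3) K)
    (a b c : Fin 3 → K) (ha : Function.Injective a) (hb : Function.Injective b)
    (hc : Function.Injective c) (hA : A = Matrix.diagonal a) (hB : Mid 1 B) (hC : Mid 2 C)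
    (hPQ : P * Q = 1) (hQP : Q * P = 1) (hRS : R * S = 1) (hSR : S * R = 1)
    (e1 : B * P = P * Matrix.diagonal b) (e2 : A * P = P * M) (e3 : C * P = P * N)
    (hM : Mid 1 M) (hN : Mid 0 N)
    (e4 : C * R = R * Matrix.diagonal c) (e5 : A * R = R * M') (e6 : B * R = R * N')
    (hM' : Mid 1 M') (hN' : Mid 0 N') : Fails K := by
  have one1 : (1 : Matrix (Fin 3) (Fin 3) K) * 1 = 1 := by simp
  have tA : LinearMap.toMatrix (colBasis 1 1 one1 one1) (colBasis 1 1 one1 one1)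
      (Matrix.toLin' A) = Matrix.diagonal a :=
    toMatrix_colBasis _ _ _ _ one1 one1 (by rw [hA]; simp)
  have tB : LinearMap.toMatrix (colBasis 1 1 one1 one1) (colBasis 1 1 one1 one1)
      (Matrix.toLin' B) = B := toMatrix_colBasis _ _ _ _ one1 one1 (by simp)
  have tC : LinearMap.toMatrix (colBasis 1 1 one1 one1) (colBasis 1 1 one1 one1)
      (Matrix.toLin' C) = C := toMatrix_colBasis _ _ _ _ one1 one1 (by simp)
  have pA := toMatrix_colBasis P Q A M hPQ hQP e2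
  have pB := toMatrix_colBasis P Q B _ hPQ hQP e1
  have pC := toMatrix_colBasis P Q C N hPQ hQP e3
  have rA := toMatrix_colBasis R S A M' hRS hSR e5
  have rB := toMatrix_colBasis R S B N' hRS hSR e6
  have rC := toMatrix_colBasis R S C _ hRS hSR e4
  have n1 : ¬ HasCommonBasis (Matrix.toLin' A) (Matrix.toLin' B) (Matrix.toLin' C) := by
    refine no_common _ _ _ _ a ha tA 0 2 1 (by decide) (by decide) (by decide) ?_ ?_
    · rw [tB]; exact hB.zero _ _ (by decide) (by decide) (by decide)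
    · rw [tC]; exact hC.zero _ _ (by decide) (by decide) (by decide)
  have n2 : ¬ HasCommonBasis (Matrix.toLin' B) (Matrix.toLin' A) (Matrix.toLin' C) := by
    refine no_common _ _ _ _ b hb pB 2 0 1 (by decide) (by decide) (by decide) ?_ ?_
    · rw [pA]; exact hM.zero _ _ (by decide) (by decide) (by decide)
    · rw [pC]; exact hN.zero _ _ (by decide) (by decide) (by decide)
  have n3 : ¬ HasCommonBasis (Matrix.toLin' C) (Matrix.toLin' A) (Matrix.toLin' B) := by
    refine no_common _ _ _ _ c hc rC 2 0 1 (by decide) (by decide) (by decide) ?_ ?_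
    · rw [rA]; exact hM'.zero _ _ (by decide) (by decide) (by decide)
    · rw [rB]; exact hN'.zero _ _ (by decide) (by decide) (by decide)
  exact ⟨Matrix.toLin' A, Matrix.toLin' B, Matrix.toLin' C,
    ⟨pair_of _ _ _ _ a b _ _ 1 1 tA tB hB pB pA hM,
     pair_of _ _ _ _ a c _ _ 2 1 tA tC hC rC rA hM',
     pair_of _ _ _ _ b c _ _ 0 0 pB pC hN rC rB hN'⟩, fun h => n1 h.1, n1, n2, n3⟩

theorem fails_general (K : Type*) [Field K] (h2 : (2 : K) ≠ 0) (h3 : (3 : K) ≠ 0) : Fails K := by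
  have h4 : (4 : K) ≠ 0 := by
    have : (4 : K) = 2 * 2 := by norm_num
    rw [this]; exact mul_ne_zero h2 h2
  refine cert !![0, 0, 0; 0, 1, 0; 0, 0, -1] !![0, 2, 0; 2, 1, 1; 0, -2, 0]
    !![0, 0, 2; 0, 0, -2; 2, 1, 1]
    !![2, 1, 1; -1, 0, 1; -2, -2, -1] !![2/3, -1/3, 1/3; -1, 0, -1; 2/3, 2/3, 1/3]
    !![-2, -1, 1; 2, 2, -1; 1, 0, 1] !![-2/3, -1/3, 1/3; 1, 1, 0; 2/3, 1/3, 2/3]
    !![1, 2/3, 0; -2, -2, -1; 0, 2/3, 1] !![-11/3, -4, -4/3; 3, 4, 0; 1/3, 0, 2/3]
    !![-1, -2/3, 0; 2, 2, -1; 0, 2/3, -1] !![-11/3, -4, 4/3; 3, 4, 0; -1/3, 0, 2/3]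
    ![0, 1, -1] ![-1, 0, 2] ![-1, 0, 2] (inj3 _ _ _ ?_ ?_ ?_) (inj3 _ _ _ ?_ ?_ ?_)
    (inj3 _ _ _ ?_ ?_ ?_) (diag3 _ _ _) (mid1 _ _ _ _ _ _ _ ?_ ?_ ?_ ?_)
    (mid2 _ _ _ _ _ _ _ ?_ ?_ ?_ ?_) ?_ ?_ ?_ ?_ ?_ ?_ ?_ (mid1 _ _ _ _ _ _ _ ?_ ?_ ?_ ?_)
    (mid0 _ _ _ _ _ _ _ ?_ ?_ ?_ ?_) ?_ ?_ ?_ (mid1 _ _ _ _ _ _ _ ?_ ?_ ?_ ?_)
    (mid0 _ _ _ _ _ _ _ ?_ ?_ ?_ ?_)
  all_goals try (rw [← diag3])
  all_goals first
    | (apply mat_ext3 <;> simp [Matrix.mul_apply, Fin.sum_univ_three] <;> grind)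
    | grind

theorem fails_two (K : Type*) [Field K] (h : (2 : K) = 0) (t : K) (t0 : t ≠ 0) (t1 : t ≠ 1) :
    Fails K := by
  have t2 : t + 1 ≠ 0 := by grind
  refine cert !![0, 0, 0; 0, 1, 0; 0, 0, t] !![1, (1+t)^2/t, 0; 1, 1+t, 1; 0, (1+t)/t, 1]
    !![1, 0, (1+t)^2; 0, 1, 1+t; 1/t, 1, (1+t)/t]
    !![1+t^2, 1, 1+t; t, 0, t; 1+t, 1, 1]
    !![1/t^2, 1/t^2, 1/t^2; 1/t, 0, (1+t)/t; 1/t^2, (1+t)/t^2, 1/t^2]
    !![1+t^2, t, t+t^2; 1+t, 1, t; 1, 0, 1] !![1, t, t; 1, 1+t, 0; 1, t, 1+t]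
    !![1, 1/t, 0; (1+t)^2, 1+t, 1+t; 0, 1/t, 1]
    !![(1+t)^3/t^2, (1+t)/t, (1+t)^2/t^2; t*(t+1), (1+t+t^2)/t, 0; 1/t^2, 0, (1+t+t^2)/t^2]
    !![t, t, 0; (1+t)^2, 1+t, t*(t+1); 0, t, t]
    !![(1+t)^3/t, (1+t)/t, (1+t)^2; (1+t)/t, (1+t+t^2)/t, 0; t^2, 0, 1+t+t^2]
    ![0, 1, t] ![0, 1, t] ![0, 1, 1/t] (inj3 _ _ _ ?_ ?_ ?_) (inj3 _ _ _ ?_ ?_ ?_)
    (inj3 _ _ _ ?_ ?_ ?_) (diag3 _ _ _) (mid1 _ _ _ _ _ _ _ ?_ ?_ ?_ ?_)
    (mid2 _ _ _ _ _ _ _ ?_ ?_ ?_ ?_) ?_ ?_ ?_ ?_ ?_ ?_ ?_ (mid1 _ _ _ _ _ _ _ ?_ ?_ ?_ ?_)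
    (mid0 _ _ _ _ _ _ _ ?_ ?_ ?_ ?_) ?_ ?_ ?_ (mid1 _ _ _ _ _ _ _ ?_ ?_ ?_ ?_)
    (mid0 _ _ _ _ _ _ _ ?_ ?_ ?_ ?_)
  all_goals try (rw [← diag3])
  all_goals first
    | (apply mat_ext3 <;> simp [Matrix.mul_apply, Fin.sum_univ_three] <;> grind)
    | grind

theorem fails_three (K : Type*) [Field K] (h : (3 : K) = 0) (t : K) (t0 : t ≠ 0) (t1 : t ≠ 1)
    (t2 : t ≠ -1) : Fails K := by
  have s1 : t - 1 ≠ 0 := sub_ne_zero.mpr t1
  have s2 : t + 1 ≠ 0 := by grind
  refine cert !![t, 0, 0; 0, 1, 0; 0, 0, 0]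
    !![(1+t)/(t-1), t*(t+1)/(t-1)^2, 0; 1, (t+1)^2/(t-1), 1; 0, 1-t, -1]
    !![1, 0, -t/(t-1)^2; 0, 1, t/(t-1); t-1, t, t]
    !![-t, -t*(t+1), 1+t; t-1, 1-t, t*(t-1); -(t-1)^2, -(t-1)^2, -(t-1)^2]
    !![1/(t-1)^2, -(1+t)/(t-1)^3, -(1+t)/(t-1)^3;
      -1/((t-1)*(t+1)), -1/((t-1)^2*(t+1)), 1/((t-1)^2*(t+1));
      1/((t-1)^2*(t+1)), t^2/((t+1)*(t-1)^3), t/((t+1)*(t-1)^3)]
    !![-t, -t, -1; t*(t-1), t-1, t-1; -(t-1)^2, 0, (t-1)^2]
    !![1/((t-1)*(t+1)), t/((t-1)^2*(t+1)), -1/((t-1)^2*(t+1));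
      -1/(t-1), -1/(t-1)^2, 0;
      1/((t-1)*(t+1)), t/((t-1)^2*(t+1)), t/((t-1)^2*(t+1))]
    !![-1, -(t+1)^2/(t-1), 0; 1, (t^2-t-1)/(t+1), -t/(t+1); 0, -t^2/((t-1)*(t+1)), t/(t+1)]
    !![(t+1)^2/(t-1), 1-t, t/(t-1); (1-t)/(1+t), -1, 0; t^2/((t-1)*(t+1)), 0, -1/(t-1)]
    !![0, -t/(1+t), 0; t, 1+t, 1; 0, -t/(1+t), 0]
    !![(t^2-t-1)/(1+t), 1, (1-t)/(1+t); 1+t, -1, 0; -t/(1+t), 0, -1/(1+t)]
    ![t, 1, 0] ![0, 1, t-1] ![0, 1, t+1] (inj3 _ _ _ ?_ ?_ ?_) (inj3 _ _ _ ?_ ?_ ?_)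
    (inj3 _ _ _ ?_ ?_ ?_) (diag3 _ _ _) (mid1 _ _ _ _ _ _ _ ?_ ?_ ?_ ?_)
    (mid2 _ _ _ _ _ _ _ ?_ ?_ ?_ ?_) ?_ ?_ ?_ ?_ ?_ ?_ ?_ (mid1 _ _ _ _ _ _ _ ?_ ?_ ?_ ?_)
    (mid0 _ _ _ _ _ _ _ ?_ ?_ ?_ ?_) ?_ ?_ ?_ (mid1 _ _ _ _ _ _ _ ?_ ?_ ?_ ?_)
    (mid0 _ _ _ _ _ _ _ ?_ ?_ ?_ ?_)
  all_goals try (rw [← diag3])
  all_goals first
    | (apply mat_ext3 <;> simp [Matrix.mul_apply, Fin.sum_univ_three] <;> field_simp <;> grind)
    | grind

/-- Over every field `K` with at least four elements there are three maps on `K^3` that are pairwise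
Leonard pairs but do not form a Leonard triple; moreover for none of the three maps is there a single
basis diagonalising it and making the other two irreducible tridiagonal. -/
theorem result (K : Type*) [Field K] (hK : 4 ≤ ENat.card K) :
    ∃ A B C : (Fin 3 → K) →ₗ[K] (Fin 3 → K),
      (IsLeonardPair A B ∧ IsLeonardPair A C ∧ IsLeonardPair B C) ∧ ¬ IsLeonardTriple A B C ∧
      ¬ HasCommonBasis A B C ∧ ¬ HasCommonBasis B A C ∧ ¬ HasCommonBasis C A B := by
  obtain ⟨t, t0, t1, t2⟩ : ∃ t : K, t ≠ 0 ∧ t ≠ 1 ∧ t ≠ -1 := by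
    by_contra hcon
    push Not at hcon
    have hsub : (Set.univ : Set K) ⊆ {0, 1, -1} := by
      intro x _
      by_cases h0 : x = 0
      · simp [h0]
      · by_cases h1 : x = 1
        · simp [h1]
        · simp [hcon x h0 h1]
    have h1 : (Set.univ : Set K).encard ≤ 3 := by
      refine (Set.encard_le_encard hsub).trans ?_
      refine (Set.encard_insert_le _ _).trans ?_
      have := Set.encard_insert_le ({-1} : Set K) 1
      rw [Set.encard_singleton] at this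
      refine (add_le_add this le_rfl).trans ?_
      norm_num
    rw [Set.encard_univ] at h1
    have h2 := hK.trans h1
    exact absurd h2 (by norm_num)
  by_cases h2 : (2 : K) = 0
  · exact fails_two K h2 t t0 t1
  · by_cases h3 : (3 : K) = 0
    · exact fails_three K h3 t t0 t1 t2
    · exact fails_general K h2 h3

end Pool.Agent.Results.MP_23ff89_al.NotTriple
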